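import Pool.Agent.Run7.h275.RB0

/-!
Piece BUB of the project of helper275: the local rings of the blowing-up in terms of a chart.
-/

set_option autoImplicit false
set_option linter.unusedVariables false

namespace Pool.Agent.Run7.h973.RB

open Pool.Agent.W418.LU2 Pool.Agent.H918R2.Quad Pool.Agent.Run7.h275.RL Pool.Agent.Run7.h275.RB

variable {O F : Type} [CommRing O] [Field F] [Algebra O F]

lemma fgo_alg {B : Subring F} (h : FGO O B) (o : O) : algebraMap O F o ∈ B := by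
  obtain ⟨s, rfl⟩ := h
  exact Subalgebra.algebraMap_mem (Algebra.adjoin O (s : Set F)) o

lemma val_le_of_div {V : ValuationSubring F} {m w : F} (hw : w ≠ 0) (h : m / w ∈ V) :
    V.valuation m ≤ V.valuation w := by
  rw [← V.valuation_le_one_iff, map_div₀] at h
  exact (div_le_one₀ ((Valuation.pos_iff _).2 hw)).1 h

lemma pow_val_le {V : ValuationSubring F} (hV : Cn O V) {M : Submodule O F} {w : F} (hw : w ≠ 0)
    (h : ∀ m ∈ M, m / w ∈ V) (j : ℕ) : ∀ q ∈ M ^ j, V.valuation q ≤ V.valuation w ^ j := by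
  intro q hq
  rw [← map_pow]
  exact val_le_of_div (pow_ne_zero _ hw) (chart_le_V hV h (pow_div_mem hw j q hq))

lemma exists_den {A B : Subring F} (hB : ∀ o, algebraMap O F o ∈ B) (w : F) (G : Finset F)
    (h : ∀ g ∈ G, g / w ∈ lo A B) :
    ∃ t ∈ B, t ≠ 0 ∧ t⁻¹ ∈ A ∧ ∀ m ∈ Submodule.span O (G : Set F), t * (m / w) ∈ B := by
  classical
  induction G using Finset.induction_on with
  | empty =>
    refine ⟨1, B.one_mem, one_ne_zero, by rw [inv_one]; exact A.one_mem, fun m hm => ?_⟩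
    rw [Finset.coe_empty, Submodule.span_empty, Submodule.mem_bot] at hm
    rw [hm, zero_div, mul_zero]
    exact B.zero_mem
  | insert g G hg ih =>
    obtain ⟨t, ht, ht0, htA, htm⟩ := ih fun g' hg' => h g' (Finset.mem_insert_of_mem hg')
    obtain ⟨s, hs, u, hu, hu0, huA, hsu⟩ := h g (Finset.mem_insert_self _ _)
    refine ⟨t * u, B.mul_mem ht hu, mul_ne_zero ht0 hu0, by rw [mul_inv]; exact A.mul_mem htA huA,
      fun m hm => ?_⟩
    rw [Finset.coe_insert, Submodule.mem_span_insert] at hm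
    obtain ⟨a, z, hz, rfl⟩ := hm
    have h1 : t * u * ((a • g + z) / w) = t * (algebraMap O F a) * s + u * (t * (z / w)) := by
      rw [Algebra.smul_def, add_div, mul_div_assoc, hsu]
      field_simp
    rw [h1]
    exact B.add_mem (B.mul_mem (B.mul_mem ht (hB a)) hs) (B.mul_mem hu (htm z hz))

/-- **BUB** -/
theorem BUB : S_BUB := by
  intro O F _ _ _ _ M hM E hE k C hC E' B hD hB hOn V hV
  obtain ⟨hMC, hCm, hCent⟩ := hC
  have hVC : Cn O V := hE V (hD.1 hV)
  obtain ⟨hBV, w, hw, hw0, hwV, hQ⟩ := hOn V hV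
  obtain ⟨g₀, hg₀, hg₀0⟩ := hMC.2
  obtain ⟨c₀, hc₀, hc₀0, hc₀V⟩ := exists_gen_max hVC hMC.1 hg₀ hg₀0
  have hBO : ∀ o, algebraMap O F o ∈ B := fgo_alg hB
  have hwk0 : w ^ k ≠ 0 := pow_ne_zero _ hw0
  -- the chart of the blowing-up
  have hg : w * c₀ ∈ M * C := Submodule.mul_mem_mul hw hc₀
  have hg0 : w * c₀ ≠ 0 := mul_ne_zero hw0 hc₀0
  have hgV : ∀ m ∈ M * C, m / (w * c₀) ∈ V := by
    intro m hm
    refine Submodule.mul_induction_on hm (fun a ha b hb => ?_) (fun a b ha hb => ?_)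
    · rw [mul_div_mul_comm]
      exact V.mul_mem _ _ (hwV a ha) (hc₀V b hb)
    · rw [add_div]
      exact V.add_mem _ _ ha hb
  have hChV : (chart O (M * C) (w * c₀)).toSubring ≤ V.toSubring := chart_le_V hVC hgV
  have hw1 : ∀ m ∈ M, m / w ∈ chart O (M * C) (w * c₀) := by
    intro m hm
    refine Algebra.subset_adjoin ⟨m * c₀, Submodule.mul_mem_mul hm hc₀, ?_⟩
    field_simp
  have hc1 : ∀ c ∈ C, c / c₀ ∈ chart O (M * C) (w * c₀) := by
    intro c hc
    refine Algebra.subset_adjoin ⟨w * c, Submodule.mul_mem_mul hw hc, ?_⟩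
    field_simp
  have hMCh : chart O M w ≤ chart O (M * C) (w * c₀) := Algebra.adjoin_le (by
    rintro _ ⟨m, hm, rfl⟩
    exact hw1 m hm)
  have hprod : ∀ a : ℕ, ∀ z ∈ M ^ a * C, z / (w ^ a * c₀) ∈ chart O (M * C) (w * c₀) := by
    intro a z hz
    refine Submodule.mul_induction_on hz (fun x hx y hy => ?_) (fun x y hx hy => ?_)
    · rw [mul_div_mul_comm]
      exact Subalgebra.mul_mem _ (hMCh (pow_div_mem hw0 a x hx)) (hc1 y hy)
    · rw [add_div]
      exact Subalgebra.add_mem _ hx hy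
  -- the denominators of the elements of `M / w`
  obtain ⟨G, hG⟩ := hM.1
  obtain ⟨t₁, ht₁, ht₁0, ht₁V, ht₁m⟩ := exists_den (A := V.toSubring) hBO w G (by
    intro g hg
    rw [← hQ]
    exact le_lo _ _ (Algebra.subset_adjoin ⟨g, by rw [← hG]; exact Submodule.subset_span hg, rfl⟩))
  rw [hG] at ht₁m
  have hA : ∀ c ∈ C, ∃ β : B, β ∈ IB B E' ∧ ∃ τ ∈ B, τ ≠ 0 ∧ τ⁻¹ ∈ V ∧ τ * (c / w ^ k) = β := by
    intro c hc
    obtain ⟨hck, hcE⟩ := (hCm c).1 hc
    have h1 : c / w ^ k ∈ lo V.toSubring B := by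
      rw [← hQ]
      exact le_lo _ _ (pow_div_mem hw0 k c hck)
    obtain ⟨s, hs, t, ht, ht0, htV, hst⟩ := h1
    refine ⟨⟨t₁ * s, B.mul_mem ht₁ hs⟩, ?_, t₁ * t, B.mul_mem ht₁ ht, mul_ne_zero ht₁0 ht0,
      by rw [mul_inv]; exact V.mul_mem _ _ ht₁V htV, ?_⟩
    · intro T hT hBT
      change T.valuation (t₁ * s) < 1
      have hT1 : T.valuation t₁ ≤ 1 := (T.valuation_le_one_iff _).2 (hBT ht₁)
      have hTs : T.valuation s ≤ 1 := (T.valuation_le_one_iff _).2 (hBT hs)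
      have hTt : T.valuation t ≤ 1 := (T.valuation_le_one_iff _).2 (hBT ht)
      rw [map_mul]
      rcases hT1.lt_or_eq with h2 | h2
      · exact mul_lt_one_aux' h2 hTs
      · have h3 : ∀ m ∈ M, m / w ∈ T := by
          intro m hm
          have h4 := hBT (ht₁m m hm)
          have h5 : T.valuation (t₁ * (m / w)) ≤ 1 := (T.valuation_le_one_iff _).2 h4
          rw [map_mul, h2, one_mul] at h5
          exact (T.valuation_le_one_iff _).1 h5
        obtain ⟨w', hw', hcw'⟩ := hcE T (hD.1 hT)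
        have h4 : T.valuation w' ≤ T.valuation w := val_le_of_div hw0 (h3 w' hw')
        have h5 : T.valuation (c / w ^ k) < 1 := by
          rw [map_div₀, map_pow]
          have h6 : 0 < T.valuation w ^ k := pow_pos ((Valuation.pos_iff _).2 hw0) _
          rw [div_lt_one₀ h6]
          exact hcw'.trans_le (pow_le_pow_left₀ zero_le h4 k)
        have h6 : s = t * (c / w ^ k) := by
          rw [hst]
          field_simp
        rw [h2, one_mul, h6, map_mul]
        exact mul_lt_one_aux hTt h5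
    · rw [hst]
      change t₁ * t * (s * t⁻¹) = t₁ * s
      field_simp
  have hBsup : ∀ b : B, b ∈ IB B E' → ∃ σ ∈ chart O M w, σ ≠ 0 ∧ σ⁻¹ ∈ V ∧
      σ * b * w ^ k / c₀ ∈ chart O (M * C) (w * c₀) := by
    intro b hb
    have h1 : (b : F) ∈ lo V.toSubring (chart O M w).toSubring := by
      rw [hQ]
      exact le_lo _ _ b.2
    obtain ⟨p', hp', q', hq', hq'0, hq'V, hpq⟩ := h1
    obtain ⟨j₁, hj₁⟩ := chart_pow_mem hw hw0 hp'
    obtain ⟨j₂, hj₂⟩ := chart_pow_mem hw hw0 hq'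
    obtain ⟨j, hj⟩ : ∃ j, j = max j₁ j₂ := ⟨_, rfl⟩
    have hp := hj₁ j (by rw [hj]; exact le_max_left _ _)
    have hq := hj₂ j (by rw [hj]; exact le_max_right _ _)
    have hpb : p' * w ^ j = b * (q' * w ^ j) := by
      rw [hpq]
      field_simp
    have hvan' : ∀ T ∈ E', Vn M j T (p' * w ^ j) := by
      intro T hT
      obtain ⟨hBT, w', hw', hw'0, hw'T, hQ'⟩ := hOn T hT
      refine ⟨w', hw', ?_⟩
      have h2 : T.valuation (b : F) < 1 := hb T hT hBT
      have h3 := pow_val_le (hE T (hD.1 hT)) hw'0 hw'T j _ hq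
      rw [hpb, map_mul]
      have h4 : 0 < T.valuation (q' * w ^ j) :=
        (Valuation.pos_iff _).2 (mul_ne_zero hq'0 (pow_ne_zero _ hw0))
      refine lt_of_lt_of_le ?_ h3
      exact mul_lt_of_lt_one_left h4 h2
    have hvan := hD.2 j _ hp hvan'
    obtain ⟨l, W, hW, hWV, hWp⟩ := hCent j _ hp hvan V hVC
    have hWw : V.valuation w ^ (k + l) ≤ V.valuation W := by
      by_contra hcon
      exact hWV ⟨w, hw, not_le.1 hcon⟩
    have hW0 : W ≠ 0 := by
      rintro rfl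
      rw [map_zero] at hWw
      exact absurd (pow_pos ((Valuation.pos_iff _).2 hw0) _) (not_lt.2 hWw)
    refine ⟨W / w ^ (k + l) * q', Subalgebra.mul_mem _ (pow_div_mem hw0 _ W hW) hq',
      mul_ne_zero (div_ne_zero hW0 (pow_ne_zero _ hw0)) hq'0, ?_, ?_⟩
    · rw [mul_inv, inv_div]
      refine V.mul_mem _ _ ?_ hq'V
      rw [← V.valuation_le_one_iff, map_div₀, map_pow]
      exact div_le_one_of_le₀ hWw zero_le
    · have h5 : W / w ^ (k + l) * q' * b * w ^ k / c₀ = W * (p' * w ^ j) / (w ^ (j + l) * c₀) := by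
        rw [hpb, pow_add, pow_add]
        field_simp
      rw [h5]
      exact hprod _ _ hWp
  -- the first part
  obtain ⟨β₀, hβ₀, τ₀, hτ₀, hτ₀0, hτ₀V, hτβ⟩ := hA c₀ hc₀
  have hβ₀0 : (β₀ : F) ≠ 0 := by
    rw [← hτβ]
    exact mul_ne_zero hτ₀0 (div_ne_zero hc₀0 hwk0)
  have hyV : ∀ b : B, b ∈ IB B E' → (b : F) * w ^ k / c₀ ∈ V := by
    intro b hb
    obtain ⟨σ, hσ, hσ0, hσV, h1⟩ := hBsup b hb
    have h2 : (b : F) * w ^ k / c₀ = σ⁻¹ * (σ * b * w ^ k / c₀) := by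
      field_simp
    rw [h2]
    exact V.mul_mem _ _ hσV (hChV h1)
  refine ⟨⟨β₀, hβ₀, fun h => hβ₀0 (by rw [h]; rfl), fun b hb => ?_⟩, ?_⟩
  · have h1 : (b : F) / β₀ = τ₀⁻¹ * ((b : F) * w ^ k / c₀) := by
      rw [← hτβ]
      field_simp
    rw [h1]
    exact V.mul_mem _ _ hτ₀V (hyV b hb)
  intro x hx hx0 hxV
  have hxF : (x : F) ≠ 0 := fun h => hx0 (Subtype.ext h)
  refine ⟨w * c₀, hg, hg0, hgV, ?_⟩
  obtain ⟨S, hS⟩ : ∃ S : Subring F, S = Subring.closure ((B : Set F) ∪ {t | ∃ b : B, b ∈ IB B E' ∧ t = (b : F) / x}) :=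
    ⟨_, rfl⟩
  have hSB : B ≤ S := by
    rw [hS]
    intro b hb
    exact Subring.subset_closure (Or.inl hb)
  have hSx : ∀ b : B, b ∈ IB B E' → (b : F) / x ∈ S := by
    intro b hb
    rw [hS]
    exact Subring.subset_closure (Or.inr ⟨b, hb, rfl⟩)
  have hSV : S ≤ V.toSubring := by
    rw [hS, Subring.closure_le]
    rintro t (ht | ⟨b, hb, rfl⟩)
    · exact hBV ht
    · exact hxV b hb
  have hbl : bl V.toSubring B (IB B E') x = lo V.toSubring S := by
    unfold bl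
    rw [hS]
  rw [hbl]
  have hinvS : ∀ z ∈ lo V.toSubring S, z ≠ 0 → z⁻¹ ∈ V → z⁻¹ ∈ lo V.toSubring S :=
    fun z hz hz0 hzV => inv_mem_lo hSV hz hz0 hzV
  have hinvC : ∀ z ∈ lo V.toSubring (chart O (M * C) (w * c₀)).toSubring, z ≠ 0 → z⁻¹ ∈ V →
      z⁻¹ ∈ lo V.toSubring (chart O (M * C) (w * c₀)).toSubring :=
    fun z hz hz0 hzV => inv_mem_lo hChV hz hz0 hzV
  apply le_antisymm
  · apply lo_le_lo hSV
    have hOS : ∀ o, algebraMap O F o ∈ lo V.toSubring S := fun o => le_lo _ _ (hSB (hBO o))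
    let L : Subalgebra O F := { lo V.toSubring S with algebraMap_mem' := hOS }
    have hL : ∀ z, z ∈ L ↔ z ∈ lo V.toSubring S := fun z => Iff.rfl
    have h1 : ∀ m ∈ M, m / w ∈ lo V.toSubring S := by
      intro m hm
      have h2 : m / w ∈ lo V.toSubring B := by
        rw [← hQ]
        exact le_lo _ _ (Algebra.subset_adjoin ⟨m, hm, rfl⟩)
      exact lo_mono hSB h2
    have h2 : ((β₀ : F) / x)⁻¹ ∈ lo V.toSubring S := by
      refine hinvS _ (le_lo _ _ (hSx β₀ hβ₀)) (div_ne_zero hβ₀0 hxF) ?_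
      have h3 : ((β₀ : F) / x)⁻¹ = τ₀⁻¹ * ((x : F) * w ^ k / c₀) := by
        rw [← hτβ]
        field_simp
      rw [h3]
      exact V.mul_mem _ _ hτ₀V (hyV x hx)
    have h3 : ∀ c ∈ C, c / c₀ ∈ lo V.toSubring S := by
      intro c hc
      obtain ⟨β, hβ, τ, hτ, hτ0, hτV, hτc⟩ := hA c hc
      have h4 : c / c₀ = ((β : F) / x) * τ⁻¹ * (τ₀ * ((β₀ : F) / x)⁻¹) := by
        rw [← hτβ, ← hτc]
        field_simp
      rw [h4]
      refine Subring.mul_mem _ (Subring.mul_mem _ (le_lo _ _ (hSx β hβ)) ?_)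
        (Subring.mul_mem _ (le_lo _ _ (hSB hτ₀)) h2)
      exact hinvS _ (le_lo _ _ (hSB hτ)) hτ0 hτV
    have h4 : chart O (M * C) (w * c₀) ≤ L := Algebra.adjoin_le (by
      rintro _ ⟨m, hm, rfl⟩
      change m / (w * c₀) ∈ lo V.toSubring S
      refine Submodule.mul_induction_on hm (fun a ha b hb => ?_) (fun a b ha hb => ?_)
      · rw [mul_div_mul_comm]
        exact Subring.mul_mem _ (h1 a ha) (h3 b hb)
      · rw [add_div]
        exact Subring.add_mem _ ha hb)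
    exact h4
  · apply lo_le_lo hChV
    have hQL : lo V.toSubring B ≤ lo V.toSubring (chart O (M * C) (w * c₀)).toSubring := by
      rw [← hQ]
      exact lo_mono hMCh
    have hyL : ∀ b : B, b ∈ IB B E' → (b : F) * w ^ k / c₀ ∈
        lo V.toSubring (chart O (M * C) (w * c₀)).toSubring := by
      intro b hb
      obtain ⟨σ, hσ, hσ0, hσV, h1⟩ := hBsup b hb
      have h2 : (b : F) * w ^ k / c₀ = σ⁻¹ * (σ * b * w ^ k / c₀) := by
        field_simp
      rw [h2]
      exact Subring.mul_mem _ (hinvC _ (le_lo _ _ (hMCh hσ)) hσ0 hσV) (le_lo _ _ h1)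
    have hyi : ((x : F) * w ^ k / c₀)⁻¹ ∈ lo V.toSubring (chart O (M * C) (w * c₀)).toSubring := by
      refine hinvC _ (hyL x hx) (div_ne_zero (mul_ne_zero hxF hwk0) hc₀0) ?_
      have h3 : ((x : F) * w ^ k / c₀)⁻¹ = ((β₀ : F) / x) * τ₀⁻¹ := by
        rw [← hτβ]
        field_simp
      rw [h3]
      exact V.mul_mem _ _ (hxV β₀ hβ₀) hτ₀V
    rw [hS, Subring.closure_le]
    rintro t (ht | ⟨b, hb, rfl⟩)
    · exact hQL (le_lo _ _ ht)
    · have h4 : (b : F) / x = ((b : F) * w ^ k / c₀) * ((x : F) * w ^ k / c₀)⁻¹ := by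
        field_simp
      change (b : F) / x ∈ lo V.toSubring (chart O (M * C) (w * c₀)).toSubring
      rw [h4]
      exact Subring.mul_mem _ (hyL b hb) hyi

end Pool.Agent.Run7.h973.RB
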